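import Pool.Agent.R743.PP.Stm
import Pool.Agent.R743.PP.Defs
import Pool.Agent.R743.PP.Top
import Pool.Agent.R743.PP.Abs
import Pool.Agent.R743.PP.Reg
import Pool.Agent.R743.PP.Ic
import Pool.Agent.R743.PP.Flat
import Pool.Agent.R743.PP.Pure
import Pool.Agent.R743.PP.Fpt

/-!
# MP_f54cc4_ag: the plus-pure threshold of `2⁴ + x⁴` lies strictly between the F-pure threshold of
`y⁴ + x⁴` and the log canonical threshold
-/

set_option autoImplicit false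

open Filter Topology
open Pool.Agent.R743.PP

namespace Pool.Agent.Results.MP_f54cc4_ag.PlusPure

theorem result : Tendsto (fun e : ℕ => (nu 2 4 4 e : ℝ) / (2 : ℝ) ^ e) atTop (𝓝 (1 / 4)) ∧
    fpt 2 4 4 = 1 / 4 ∧
    (5 / 16 : ℝ) ∈ PPof (Rp 2) (ff 2 4 4) ∧ (∀ α ∈ PPof (Rp 2) (ff 2 4 4), α ≤ 3 / 8) ∧
    5 / 16 ≤ pptOf (Rp 2) (ff 2 4 4) ∧ pptOf (Rp 2) (ff 2 4 4) ≤ 3 / 8 ∧
    ∃ (p : ℕ) (_ : Fact p.Prime) (a b : ℕ), 2 ≤ a ∧ 2 ≤ b ∧ fpt p a b < pptOf (Rp p) (ff p a b) ∧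
      pptOf (Rp p) (ff p a b) < 1 / a + 1 / b := by
  obtain ⟨h1, h2, h3⟩ := Top.main reg ic (pure (flat reg)) fptlim Abs.abs
  rw [← PPof_eq] at h2 h3
  have hb : BddAbove (PPof (Rp 2) (ff 2 4 4)) := ⟨3 / 8, h3⟩
  have h4 : 5 / 16 ≤ pptOf (Rp 2) (ff 2 4 4) := le_csSup hb h2
  have h5 : pptOf (Rp 2) (ff 2 4 4) ≤ 3 / 8 := csSup_le ⟨_, h2⟩ h3
  refine ⟨fptlim, h1, h2, h3, h4, h5, 2, inferInstance, 4, 4, by norm_num, by norm_num, ?_, ?_⟩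
  · rw [h1]
    exact lt_of_lt_of_le (by norm_num) h4
  · refine lt_of_le_of_lt h5 ?_
    norm_num

end Pool.Agent.Results.MP_f54cc4_ag.PlusPure
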